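import Pool.Agent.helper1.FI3.SpecH

/-!
# EPR: the idempotents of disjoint sets of characters are orthogonal
-/

set_option autoImplicit false

namespace Pool.Agent.FI3

open Pool.Agent.helper58.DC Pool.Agent.DI Pool.Agent.GR Pool.Agent.OB Pool.Agent.DR Pool.Agent.FI

theorem EPR_cv_zero {G : Type} [Group G] (a : G → ℂ) : cv a (0 : G → ℂ) = 0 := by
  funext g
  simp [cv]

theorem EPR_zero_cv {G : Type} [Group G] (a : G → ℂ) : cv (0 : G → ℂ) a = 0 := by
  funext g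
  simp [cv]

theorem EPR (hIDM : IDM_stmt) (hCCI : CCI_stmt) (hCVF : CVF_stmt) (hEXP : EXP_stmt) : EPR_stmt := by
  classical
  intro G _ _ K S S' hS hS' hd j j' hj hj' h1 h2
  obtain ⟨i1, i2, -, -⟩ := hIDM G K S hS
  obtain ⟨i1', i2', -, -⟩ := hIDM G K S' hS'
  obtain ⟨hassoc, -, -, -, -, -, hcomm, hCF, -, -, -, -⟩ := hCVF G
  have hz : cv (eS K S) (eS K S') = 0 := by
    refine hEXP G K _ (hCF K _ _ i1 i1').1 fun ψ hψ => ?_
    rw [(hCCI G K ψ hψ).2.1 _ _ i1 i1', i2 ψ hψ, i2' ψ hψ]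
    by_cases h : ψ ∈ S
    · rw [if_neg (hd ψ h), mul_zero]
    · rw [if_neg h, zero_mul]
  calc cv j j' = cv (cv j (eS K S)) (cv j' (eS K S')) := by rw [h1, h2]
    _ = cv j (cv (eS K S) (cv (eS K S') j')) := by
        rw [hassoc, hcomm K (eS K S') j' i1' hj']
    _ = cv j (cv (cv (eS K S) (eS K S')) j') := by rw [hassoc (eS K S)]
    _ = 0 := by rw [hz, EPR_zero_cv, EPR_cv_zero]

end Pool.Agent.FI3
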