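import Pool.Agent.helper70.FI3.SpecN3

/-!
# DCV3: second main theorem for one block of `Cz H y`
-/

set_option autoImplicit false

namespace Pool.Agent.FI3

open Pool.Agent.helper58.DC Pool.Agent.DI Pool.Agent.GR Pool.Agent.OB Pool.Agent.DR Pool.Agent.FI

theorem DCV3 (hRR1 : RR1_stmt) (hEVM : EVM_stmt) (hIDM : IDM_stmt) (hEIN : EIN_stmt) (hCVF : CVF_stmt)
    (hCCI : CCI_stmt) (hEXP : EXP_stmt) (hB2 : B2_stmt) : DCV3_stmt := by
  classical
  intro p M hM G _ _ H y hy hyp v hv hvp E S F hE hS hF hSF hcong χ' hχ' hχE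
  obtain ⟨C, hC⟩ : ∃ C : Subgroup G, C = Cz H y := ⟨_, rfl⟩
  have hvy : y * v = v * y := by
    have h1 := Subgroup.mem_centralizer_iff.1 hv.2 y (Set.mem_singleton y)
    exact h1
  have hvH : v ∈ H := hv.1
  rw [← hC] at hv hS hF hcong ⊢
  have hCH : C ≤ H := by
    rw [hC]
    exact inf_le_left
  have hyC : y ∈ C := by
    rw [hC]
    refine ⟨hy, Subgroup.mem_centralizer_iff.2 ?_⟩
    intro z hz
    rw [Set.mem_singleton_iff] at hz
    rw [hz]
  have hgC : y * v ∈ C := C.mul_mem hyC hv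
  obtain ⟨hh, hcch, hhh, -⟩ := hIDM G C S hS.sub
  obtain ⟨he, hcce, hee, -⟩ := hIDM G H E hE.sub
  obtain ⟨hf, hccf, hff, -⟩ := hIDM G C F hF.sub
  have hhI := hEIN p M hM G C S hS
  have heI := hEIN p M hM G H E hE
  obtain ⟨h, hhdef⟩ : ∃ h : G → ℂ, h = eS C S := ⟨_, rfl⟩
  obtain ⟨e, hedef⟩ : ∃ e : G → ℂ, e = eS H E := ⟨_, rfl⟩
  obtain ⟨f, hfdef⟩ : ∃ f : G → ℂ, f = eS C F := ⟨_, rfl⟩
  rw [← hhdef] at hh hcch hhh hhI ⊢
  rw [← hedef] at he hcce hee heI
  rw [← hfdef] at hf hccf hff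
  have hcong' : ∀ z ∈ C, InM M (e z - f z) := by
    rw [hedef, hfdef]
    exact hcong
  obtain ⟨c1, c2, c3, c4, c5, c6, c7, c8, c9, c10, c11, c12⟩ := hCVF G
  have hsH : ∀ x, x ∉ H → h x = 0 := fun x hx => hh.2 x fun hx' => hx (hCH hx')
  have hk : cv e h = cv h e := c7 H e h he hsH
  have hi3 : cv (cv h e) (cv h e) = cv h e := by
    calc cv (cv h e) (cv h e) = cv h (cv e (cv h e)) := c1 _ _ _
      _ = cv h (cv (cv e h) e) := by rw [c1 e h e]
      _ = cv h (cv (cv h e) e) := by rw [hk]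
      _ = cv h (cv h e) := by rw [c1 h e e, hee]
      _ = cv h e := by rw [← c1, hhh]
  have hfh : cv h f = h := by
    have hCF : CF C (cv h f - h) := (c8 C (cv h f) h (c8 C h f hh hf).1 hh).2.2
    have h0 : cv h f - h = 0 := by
      refine hEXP G C _ hCF fun ψ hψ => ?_
      obtain ⟨k1, k2, -⟩ := hCCI G C ψ hψ
      rw [(k1 1 (cv h f) h).2.1, k2 h f hh hf, hccf ψ hψ, hcch ψ hψ]
      by_cases hs : ψ ∈ S
      · rw [if_pos hs, if_pos (hSF hs)]
        ring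
      · rw [if_neg hs]
        ring
    exact sub_eq_zero.1 h0
  have hil : ∀ l ∈ C, InM M (h l - cv h e l) := by
    intro l hl
    have _ := Fintype.ofFinite G
    have e2 : h l = ∑ x, h x * f (x⁻¹ * l) := by
      have e3 := congrFun hfh l
      unfold cv at e3
      rw [finsum_eq_sum_of_fintype] at e3
      exact e3.symm
    have e4 : cv h e l = ∑ x, h x * e (x⁻¹ * l) := by
      unfold cv
      rw [finsum_eq_sum_of_fintype]
    have e1 : h l - cv h e l = -∑ᶠ x, h x * (e (x⁻¹ * l) - f (x⁻¹ * l)) := by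
      rw [e4, e2, finsum_eq_sum_of_fintype, ← Finset.sum_sub_distrib, ← Finset.sum_neg_distrib]
      exact Finset.sum_congr rfl fun x _ => by ring
    rw [e1]
    refine InM.neg (InM.finsum hM fun x => ?_)
    by_cases hx : x ∈ C
    · rw [mul_comm]
      exact InM.mul_right hM (hcong' _ (C.mul_mem (C.inv_mem hx) hl)) (hhI _)
    · rw [hh.2 x hx, zero_mul]
      exact InM.zero hM
  have hI1 : Idm M H h := ⟨hsH, hhI, hhh⟩
  have hI2 : Idm M H (cv h e) := ⟨fun x hx => c6 H h e hsH he.2 x hx, fun x => c11 p M hM h e hhI heI x, hi3⟩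
  have hinv : ∀ x, h ((y * v) * x * (y * v)⁻¹) = h x := hh.1 _ hgC
  have hinv' : ∀ x, cv h e ((y * v) * x * (y * v)⁻¹) = cv h e x :=
    c5 (y * v) h e hinv (fun x => he.1 _ (hCH hgC) x)
  have key := hRR1 p M hM G H y hy v hvH hyp hvp hvy h (cv h e) hI1 hI2 hinv hinv'
    (by rw [← hC]; exact hil) χ' hχ'
  have key2 := ((hEVM G H χ' hχ' e he (y * v) (hCH hgC)).1 h hsH).2
  rw [key, key2, hcce χ' hχ', if_neg hχE, zero_mul]

end Pool.Agent.FI3
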